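import Pool.Agent.Q223.CF.NMP
import Pool.Agent.Q7.CF.Dom

/-! # Project CF: the units of `BQ p r D` are the constants -/

set_option autoImplicit false
set_option linter.unusedSectionVars false

namespace Pool.Agent.Q13.CF

open Polynomial Module Pool.Agent.Q7.CF

section
variable {L : Type} [Field L] {S : Type} [CommRing S] [Algebra L[X] S] {p : ℕ} [NeZero p]
  (v : Basis (Fin p) L[X] S)

/-- **The units of a ring with a graded basis are the constants.** -/
theorem abs_unit (h0 : v 0 = 1) (q : Fin p → Fin p → L[X]) (hq : ∀ i j, v i * v j = q i j • v (i + j))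
    (ω : Fin p → ℕ) (hq0 : ∀ i j, q i j ≠ 0)
    (hqd : ∀ i j, ω i + ω j = ω (i + j) + p * (q i j).natDegree)
    (hω : ∀ i j, ω i ≡ ω j [MOD p] → i = j) (hω0 : ω 0 = 0) [Nontrivial S] {f g : S} (hfg : f * g = 1) :
    ∃ c : L, f = algebraMap L[X] S (C c) := by
  classical
  have hex : ∀ f : S, f ≠ 0 → ∃ i₀, v.repr f i₀ ≠ 0 ∧ ∀ i, v.repr f i ≠ 0 → i ≠ i₀ →
      p * (v.repr f i).natDegree + ω i < p * (v.repr f i₀).natDegree + ω i₀ := by
    intro f hf
    have hne : (Finset.univ.filter fun i => v.repr f i ≠ 0).Nonempty := by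
      by_contra hcon
      rw [Finset.not_nonempty_iff_eq_empty, Finset.filter_eq_empty_iff] at hcon
      apply hf
      rw [← v.sum_repr f]
      refine Finset.sum_eq_zero fun i hi => ?_
      have h1 := hcon hi
      push Not at h1
      rw [h1, zero_smul]
    obtain ⟨i₀, hi₀, hmax⟩ := Finset.exists_max_image _
      (fun i => p * (v.repr f i).natDegree + ω i) hne
    rw [Finset.mem_filter] at hi₀
    refine ⟨i₀, hi₀.2, ?_⟩
    intro i hi hii
    refine lt_of_le_of_ne (hmax i (Finset.mem_filter.2 ⟨Finset.mem_univ i, hi⟩)) fun h => hii ?_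
    refine hω _ _ ?_
    have h1 : p * (v.repr f i).natDegree + ω i ≡ p * (v.repr f i₀).natDegree + ω i₀ [MOD p] := by
      rw [h]
    have h2 : ∀ a b : ℕ, p * a + b ≡ b [MOD p] := fun a b => by
      unfold Nat.ModEq
      rw [Nat.mul_add_mod]
    exact ((h2 _ _).symm.trans h1).trans (h2 _ _)
  have hf0 : f ≠ 0 := by
    rintro rfl
    rw [zero_mul] at hfg
    exact zero_ne_one hfg
  have hg0 : g ≠ 0 := by
    rintro rfl
    rw [mul_zero] at hfg
    exact zero_ne_one hfg
  obtain ⟨i₀, hi₀, hi⟩ := hex f hf0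
  obtain ⟨j₀, hj₀, hj⟩ := hex g hg0
  have hj' : ∀ j, v.repr g j ≠ 0 → p * (v.repr g j).natDegree + ω j ≤ p * (v.repr g j₀).natDegree + ω j₀ := by
    intro j h
    by_cases h1 : j = j₀
    · rw [h1]
    · exact (hj j h h1).le
  -- the product
  have hprod : f * g = ∑ l, (∑ i, v.repr f i * v.repr g (l - i) * q i (l - i)) • v l := by
    have h1 : f * g = ∑ i, ∑ j, (v.repr f i * v.repr g j * q i j) • v (i + j) := by
      conv_lhs => rw [← v.sum_repr f, ← v.sum_repr g, Finset.sum_mul_sum]
      refine Finset.sum_congr rfl fun i _ => Finset.sum_congr rfl fun j _ => ?_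
      rw [smul_mul_smul_comm, hq, smul_smul]
    rw [h1]
    have h2 : ∀ i, ∑ j, (v.repr f i * v.repr g j * q i j) • v (i + j) =
        ∑ l, (v.repr f i * v.repr g (l - i) * q i (l - i)) • v l := by
      intro i
      rw [← Equiv.sum_comp (Equiv.addLeft i)
        (fun l => (v.repr f i * v.repr g (l - i) * q i (l - i)) • v l)]
      refine Finset.sum_congr rfl fun j _ => ?_
      rw [Equiv.coe_addLeft, add_sub_cancel_left]
    rw [Finset.sum_congr rfl fun i _ => h2 i, Finset.sum_comm]
    refine Finset.sum_congr rfl fun l _ => ?_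
    rw [Finset.sum_smul]
  have hrepr : ∀ l, v.repr (f * g) l = ∑ i, v.repr f i * v.repr g (l - i) * q i (l - i) := by
    intro l
    rw [hprod]
    exact congrFun (v.repr_sum_self _) l
  -- the leading term
  obtain ⟨k, hk⟩ : ∃ k, k = i₀ + j₀ := ⟨_, rfl⟩
  obtain ⟨T, hT⟩ : ∃ T : Fin p → L[X], T = fun i => v.repr f i * v.repr g (k - i) * q i (k - i) := ⟨_, rfl⟩
  have hTi : ∀ i, T i ≠ 0 → p * (T i).natDegree + ω k =
      (p * (v.repr f i).natDegree + ω i) + (p * (v.repr g (k - i)).natDegree + ω (k - i)) := by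
    intro i h
    rw [hT] at h ⊢
    simp only at h ⊢
    have h1 : v.repr f i ≠ 0 := fun h2 => h (by rw [h2, zero_mul, zero_mul])
    have h3 : v.repr g (k - i) ≠ 0 := fun h2 => h (by rw [h2, mul_zero, zero_mul])
    rw [natDegree_mul (mul_ne_zero h1 h3) (hq0 _ _), natDegree_mul h1 h3]
    have h4 := hqd i (k - i)
    rw [add_sub_cancel] at h4
    linarith
  have hT0 : T i₀ ≠ 0 := by
    rw [hT]
    simp only
    rw [hk, add_sub_cancel_left]
    exact mul_ne_zero (mul_ne_zero hi₀ hj₀) (hq0 _ _)
  have hT0d : p * (T i₀).natDegree + ω k =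
      (p * (v.repr f i₀).natDegree + ω i₀) + (p * (v.repr g j₀).natDegree + ω j₀) := by
    rw [hTi i₀ hT0, hk, add_sub_cancel_left]
  have hc : (v.repr (f * g) k).coeff (T i₀).natDegree = (T i₀).leadingCoeff := by
    have h1 : v.repr (f * g) k = ∑ i, T i := by rw [hrepr, hT]
    rw [h1, finsetSum_coeff, Finset.sum_eq_single i₀]
    · rfl
    · intro i _ hii
      by_cases h2 : T i = 0
      · rw [h2, coeff_zero]
      · apply coeff_eq_zero_of_natDegree_lt
        have h3 : v.repr f i ≠ 0 := by
          intro h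
          apply h2
          rw [hT]
          simp only
          rw [h, zero_mul, zero_mul]
        have h3' : v.repr g (k - i) ≠ 0 := by
          intro h
          apply h2
          rw [hT]
          simp only
          rw [h, mul_zero, zero_mul]
        have h4 := hi i h3 hii
        have h5 := hj' (k - i) h3'
        have h6 := hTi i h2
        have h7 : p * (T i).natDegree < p * (T i₀).natDegree := by omega
        exact Nat.lt_of_mul_lt_mul_left h7
    · intro h
      exact absurd (Finset.mem_univ _) h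
  have hc0 : (v.repr (f * g) k).coeff (T i₀).natDegree ≠ 0 := by
    rw [hc]
    exact leadingCoeff_ne_zero.2 hT0
  rw [hfg, ← h0, v.repr_self, Finsupp.single_apply] at hc0
  have hk0 : (0 : Fin p) = k := by
    by_contra h
    rw [if_neg h, coeff_zero] at hc0
    exact hc0 rfl
  rw [if_pos hk0, coeff_one] at hc0
  have hd0 : (T i₀).natDegree = 0 := by
    by_contra h
    rw [if_neg h] at hc0
    exact hc0 rfl
  rw [hd0, ← hk0, hω0, mul_zero] at hT0d
  have hw0 : p * (v.repr f i₀).natDegree + ω i₀ = 0 := by omega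
  have hi00 : i₀ = 0 := by
    apply hω
    rw [hω0]
    have : ω i₀ = 0 := by omega
    rw [this]
  have hdeg : (v.repr f i₀).natDegree = 0 := by
    have h1 : p * (v.repr f i₀).natDegree = 0 := by omega
    rcases Nat.mul_eq_zero.1 h1 with h | h
    · exact absurd h (NeZero.ne p)
    · exact h
  refine ⟨(v.repr f 0).coeff 0, ?_⟩
  conv_lhs => rw [← v.sum_repr f]
  rw [Finset.sum_eq_single 0]
  · rw [← hi00, ← eq_C_of_natDegree_eq_zero hdeg, hi00, h0, Algebra.smul_def, mul_one]
  · intro i _ h
    have h1 : v.repr f i = 0 := by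
      by_contra h2
      have h3 := hi i h2 (by rw [hi00]; exact h)
      rw [hw0] at h3
      exact absurd h3 (Nat.not_lt_zero _)
    rw [h1, zero_smul]
  · intro h
    exact absurd (Finset.mem_univ _) h

end

/-- **The units of `BQ p r D` are the constants.** -/
theorem unit_const (hB : S_BSC) (p r : ℕ) [Fact p.Prime] [Ok p r] (L : Type) [Field L] (D : L)
    (u : BQ p r D) (hu : IsUnit u) : ∃ c : L, u = algebraMap L (BQ p r D) c := by
  have hp := (Fact.out (p := p.Prime))
  have hne : NeZero p := ⟨hp.ne_zero⟩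
  let _ : Algebra L[X] (BQ p r D) := Pool.Agent.Q223.CF.algU p r D
  obtain ⟨v, hv⟩ := Pool.Agent.Q223.CF.exists_basis p r D hB
  obtain ⟨w, huw⟩ := hu.exists_right_inv
  have key := abs_unit v (by
      rw [hv]
      refine Subtype.ext ?_
      change XF p D ^ ((0 : Fin p) : ℕ) * YF p D ^ (r * ((0 : Fin p) : ℕ) % p) = 1
      rw [Fin.val_zero, mul_zero, Nat.zero_mod, pow_zero, pow_zero, mul_one])
    (fun i j => X ^ (((i : ℕ) + j) / p) * (C D - X) ^ ((r * i % p + r * j % p) / p))
    (fun i j => by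
      rw [hv, hv, hv, Pool.Agent.Q223.CF.vi_mul, Algebra.smul_def]
      rfl)
    (fun i => (i : ℕ) + r * (i : ℕ) % p) (fun i j => Pool.Agent.Q223.CF.q_ne D _ _)
    (fun i j => by
      have h2 : r * ((i + j : Fin p) : ℕ) % p = (r * i % p + r * j % p) % p := by
        rw [Fin.val_add, Nat.mul_mod, Nat.mod_mod, ← Nat.mul_mod, mul_add, Nat.add_mod]
      rw [Pool.Agent.Q223.CF.q_natDegree, h2, Fin.val_add, mul_add]
      have h3 := Nat.div_add_mod ((i : ℕ) + j) p
      have h4 := Nat.div_add_mod (r * i % p + r * j % p) p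
      omega)
    (fun i j h => Pool.Agent.Q223.CF.weight_inj p r i j h)
    (by simp only [Fin.val_zero, mul_zero, Nat.zero_mod, add_zero]) huw
  obtain ⟨c, hc⟩ := key
  refine ⟨c, ?_⟩
  rw [hc, Pool.Agent.Q223.CF.algMap_eq, aeval_C]

end Pool.Agent.Q13.CF
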