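import Pool.Agent.Q132.CJ.D5
import Pool.Agent.Q13.CF.Units

/-! # Project CF: descent of classes (JOB D5) -/

set_option autoImplicit false
set_option linter.unusedSectionVars false

namespace Pool.Agent.Q13.CF

open Polynomial Pool.Agent.Q7.CF

section

variable (p : ℕ) {L : Type} [Field L] (D : L)

/-- homomorphisms of `RF` -/
theorem rf_ext {S : Type} [CommRing S] (f g : RF p D →+* S)
    (hc : ∀ a, f (algebraMap L (RF p D) a) = g (algebraMap L (RF p D) a))
    (hx : f (XF p D) = g (XF p D)) (hy : f (YF p D) = g (YF p D)) : f = g := by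
  apply AdjoinRoot.ringHom_ext
  · apply Polynomial.ringHom_ext
    · exact hc
    · exact hx
  · exact hy

theorem bF_id (h : (RingHom.id L) D = D) (b : RF p D) : bF p (RingHom.id L) D D h b = b := by
  have h1 : bF p (RingHom.id L) D D h = RingHom.id _ := by
    apply rf_ext
    · intro a
      rw [bF_alg]
      rfl
    · rw [bF_XF]; rfl
    · rw [bF_YF]; rfl
  rw [h1]
  rfl

theorem bF_comp {M N : Type} [Field M] [Field N] (φ : L →+* M) (ψ : M →+* N) (χ : L →+* N) (D' : M) (D'' : N)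
    (h : φ D = D') (h' : ψ D' = D'') (h'' : χ D = D'') (hχ : ∀ x, χ x = ψ (φ x)) (b : RF p D) :
    bF p ψ D' D'' h' (bF p φ D D' h b) = bF p χ D D'' h'' b := by
  have h1 : (bF p ψ D' D'' h').comp (bF p φ D D' h) = bF p χ D D'' h'' := by
    apply rf_ext
    · intro a
      rw [RingHom.comp_apply, bF_alg, bF_alg, bF_alg, hχ]
    · rw [RingHom.comp_apply, bF_XF, bF_XF, bF_XF]
    · rw [RingHom.comp_apply, bF_YF, bF_YF, bF_YF]
  exact DFunLike.congr_fun h1 b

variable (r : ℕ)

theorem bc_alg {M : Type} [Field M] (φ : L →+* M) (D' : M) (h : φ D = D') (a : L) :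
    bc p r φ D D' h (algebraMap L (BQ p r D) a) = algebraMap M (BQ p r D') (φ a) :=
  Subtype.ext (bF_alg p φ D D' h a)

theorem bc_uu {M : Type} [Field M] (φ : L →+* M) (D' : M) (h : φ D = D') :
    bc p r φ D D' h (uu p r D) = uu p r D' := by
  refine Subtype.ext ?_
  change bF p φ D D' h (XF p D ^ p) = XF p D' ^ p
  rw [map_pow, bF_XF]

/-- the basis -/
noncomputable def wi (i : Fin p) : BQ p r D :=
  ⟨XF p D ^ (i : ℕ) * YF p D ^ (r * (i : ℕ) % p), mons_mem p r D (Nat.mod_modEq _ _)⟩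

theorem bc_wi {M : Type} [Field M] (φ : L →+* M) (D' : M) (h : φ D = D') (i : Fin p) :
    bc p r φ D D' h (wi p D r i) = wi p D' r i := by
  refine Subtype.ext ?_
  change bF p φ D D' h (XF p D ^ (i : ℕ) * YF p D ^ (r * (i : ℕ) % p)) =
    XF p D' ^ (i : ℕ) * YF p D' ^ (r * (i : ℕ) % p)
  rw [map_mul, map_pow, map_pow, bF_XF, bF_YF]

variable {M : Type} [Field M] [Algebra L M]

theorem ga_alg (τ : M ≃ₐ[L] M) (m : M) :
    ga p r D τ (algebraMap M (BQ p r (algebraMap L M D)) m) =
      algebraMap M (BQ p r (algebraMap L M D)) (τ m) :=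
  bc_alg p _ r _ _ _ m

theorem ga_val (τ : M ≃ₐ[L] M) (b : BQ p r (algebraMap L M D)) :
    (ga p r D τ b : RF p (algebraMap L M D)) =
      bF p ((τ : M →ₐ[L] M) : M →+* M) (algebraMap L M D) (algebraMap L M D) (τ.commutes D) b := rfl

theorem ga_one (b : BQ p r (algebraMap L M D)) : ga p r D (1 : M ≃ₐ[L] M) b = b :=
  Subtype.ext (bF_id p (algebraMap L M D) rfl (b : RF p (algebraMap L M D)))

theorem ga_mul (τ τ' : M ≃ₐ[L] M) (b : BQ p r (algebraMap L M D)) :
    ga p r D (τ * τ') b = ga p r D τ (ga p r D τ' b) :=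
  Subtype.ext (bF_comp p (algebraMap L M D) _ _ _ (algebraMap L M D) (algebraMap L M D) (τ'.commutes D)
    (τ.commutes D) ((τ * τ').commutes D) (fun _ => rfl) (b : RF p (algebraMap L M D))).symm

theorem ga_bc (τ : M ≃ₐ[L] M) (b : BQ p r D) :
    ga p r D τ (bc p r (algebraMap L M) D _ rfl b) = bc p r (algebraMap L M) D _ rfl b :=
  Subtype.ext (bF_comp p D _ _ _ (algebraMap L M D) (algebraMap L M D) rfl (τ.commutes D) rfl
    (fun x => (τ.commutes x).symm) (b : RF p D))

theorem alg_inj [Fact p.Prime] (a b : L) (h : algebraMap L (BQ p r D) a = algebraMap L (BQ p r D) b) : a = b := by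
  have h1 : algebraMap L (RF p D) a = algebraMap L (RF p D) b := congrArg Subtype.val h
  have h2 : AdjoinRoot.of (fF p D) (C a) = AdjoinRoot.of (fF p D) (C b) := h1
  exact C_injective (Pool.Agent.Q299.CF.DOM.of_inj p D h2)

theorem ga_inj [Fact p.Prime] : Function.Injective (ga p r D : (M ≃ₐ[L] M) → _) := by
  intro τ τ' h
  ext m
  have h1 := DFunLike.congr_fun h (algebraMap M (BQ p r (algebraMap L M D)) m)
  rw [ga_alg, ga_alg] at h1
  exact alg_inj p _ r _ _ h1

theorem ga_t1 (τ : M ≃ₐ[L] M) (b : BQ p r (algebraMap L M D)) (hb : b ∈ t1 p r (algebraMap L M D)) :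
    ga p r D τ b ∈ t1 p r (algebraMap L M D) := by
  have h1 : (b : RF p (algebraMap L M D)) ∈ Ideal.span {XF p (algebraMap L M D)} := hb
  change (ga p r D τ b : RF p (algebraMap L M D)) ∈ Ideal.span {XF p (algebraMap L M D)}
  rw [ga_val]
  obtain ⟨c, hc⟩ := Ideal.mem_span_singleton.1 h1
  rw [hc, map_mul, bF_XF]
  exact Ideal.mem_span_singleton.2 (dvd_mul_right _ _)

variable [FiniteDimensional L M] [IsGalois L M]

/-- the sum of the conjugates is defined over `L` -/
theorem tr_mem (hB : S_BSC) [Fact p.Prime] [Ok p r] (u : BQ p r (algebraMap L M D)) :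
    ∃ β : BQ p r D, ∑ τ : M ≃ₐ[L] M, ga p r D τ u = bc p r (algebraMap L M) D _ rfl β := by
  have hadd : ∀ u v : BQ p r (algebraMap L M D),
      (∃ β : BQ p r D, ∑ τ : M ≃ₐ[L] M, ga p r D τ u = bc p r (algebraMap L M) D _ rfl β) →
      (∃ β : BQ p r D, ∑ τ : M ≃ₐ[L] M, ga p r D τ v = bc p r (algebraMap L M) D _ rfl β) →
      ∃ β : BQ p r D, ∑ τ : M ≃ₐ[L] M, ga p r D τ (u + v) = bc p r (algebraMap L M) D _ rfl β := by
    rintro u v ⟨β, h1⟩ ⟨γ, h2⟩
    refine ⟨β + γ, ?_⟩
    rw [map_add, ← h1, ← h2, ← Finset.sum_add_distrib]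
    exact Finset.sum_congr rfl fun τ _ => map_add _ _ _
  have hmon : ∀ (m : M) (β : BQ p r D), ∃ γ : BQ p r D, ∑ τ : M ≃ₐ[L] M,
      ga p r D τ (algebraMap M (BQ p r (algebraMap L M D)) m * bc p r (algebraMap L M) D _ rfl β) =
        bc p r (algebraMap L M) D _ rfl γ := by
    intro m β
    refine ⟨algebraMap L (BQ p r D) (Algebra.trace L M m) * β, ?_⟩
    rw [map_mul, bc_alg, trace_eq_sum_automorphisms, map_sum, Finset.sum_mul]
    apply Finset.sum_congr rfl
    intro τ _
    rw [map_mul, ga_alg, ga_bc]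
  have hax : ∀ (a : M[X]) (β : BQ p r D), ∃ γ : BQ p r D, ∑ τ : M ≃ₐ[L] M,
      ga p r D τ (aeval (uu p r (algebraMap L M D)) a * bc p r (algebraMap L M) D _ rfl β) =
        bc p r (algebraMap L M) D _ rfl γ := by
    intro a β
    induction a using Polynomial.induction_on' with
    | add f g hf hg => rw [map_add, add_mul]; exact hadd _ _ hf hg
    | monomial n m =>
      obtain ⟨γ, hγ⟩ := hmon m (uu p r D ^ n * β)
      refine ⟨γ, ?_⟩
      rw [← hγ]
      apply Finset.sum_congr rfl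
      intro τ _
      congr 1
      rw [← C_mul_X_pow_eq_monomial, map_mul, map_pow, aeval_C, aeval_X, map_mul, map_pow, bc_uu, mul_assoc]
  obtain ⟨f, hf, -⟩ := (hB p r M (algebraMap L M D)).2.1 u
  have hf' : u = ∑ i : Fin p, aeval (uu p r (algebraMap L M D)) (f i) * wi p (algebraMap L M D) r i := hf
  rw [hf']
  refine Finset.sum_induction _ (fun u => ∃ β : BQ p r D, ∑ τ : M ≃ₐ[L] M, ga p r D τ u =
    bc p r (algebraMap L M) D _ rfl β) hadd ?_ ?_
  · refine ⟨0, ?_⟩
    rw [map_zero]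
    exact Finset.sum_eq_zero fun τ _ => map_zero _
  · intro i _
    obtain ⟨γ, hγ⟩ := hax (f i) (wi p D r i)
    refine ⟨γ, ?_⟩
    rw [← hγ, bc_wi]

/-- an ideal fixed by the Galois group is extended from `L` -/
theorem extended (hB : S_BSC) [Fact p.Prime] [Ok p r] (A : Ideal (BQ p r (algebraMap L M D)))
    (hA : ∀ τ : M ≃ₐ[L] M, A.map (ga p r D τ) = A) :
    (A.comap (bc p r (algebraMap L M) D _ rfl)).map (bc p r (algebraMap L M) D _ rfl) = A := by
  classical
  apply le_antisymm Ideal.map_comap_le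
  intro b hb
  obtain ⟨s, c, hc⟩ := Pool.Agent.Q132.CJ.dual_elements L M
  have h1 : b = ∑ m ∈ s, algebraMap M (BQ p r (algebraMap L M D)) (c m) *
      ∑ τ : M ≃ₐ[L] M, ga p r D τ (algebraMap M (BQ p r (algebraMap L M D)) m * b) := by
    have h2 : ∀ τ : M ≃ₐ[L] M, ∑ m ∈ s, algebraMap M (BQ p r (algebraMap L M D)) (c m) *
        ga p r D τ (algebraMap M (BQ p r (algebraMap L M D)) m * b) = if τ = 1 then b else 0 := by
      intro τ
      have h3 := congrArg (algebraMap M (BQ p r (algebraMap L M D))) (hc τ)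
      rw [map_sum] at h3
      calc ∑ m ∈ s, algebraMap M (BQ p r (algebraMap L M D)) (c m) *
            ga p r D τ (algebraMap M (BQ p r (algebraMap L M D)) m * b)
          = (∑ m ∈ s, algebraMap M (BQ p r (algebraMap L M D)) (c m * τ m)) * ga p r D τ b := by
            rw [Finset.sum_mul]
            apply Finset.sum_congr rfl
            intro m _
            rw [map_mul, ga_alg, map_mul, mul_assoc]
        _ = if τ = 1 then b else 0 := by
            rw [h3]
            split_ifs with h4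
            · rw [h4, ga_one, map_one, one_mul]
            · rw [map_zero, zero_mul]
    simp_rw [Finset.mul_sum]
    rw [Finset.sum_comm]
    simp_rw [h2]
    rw [Finset.sum_ite_eq' Finset.univ (1 : M ≃ₐ[L] M), if_pos (Finset.mem_univ _)]
  rw [h1]
  apply Ideal.sum_mem
  intro m _
  apply Ideal.mul_mem_left
  obtain ⟨β, hβ⟩ := tr_mem p D r hB (M := M) (algebraMap M (BQ p r (algebraMap L M D)) m * b)
  rw [hβ]
  apply Ideal.mem_map_of_mem
  rw [Ideal.mem_comap, ← hβ]
  apply Ideal.sum_mem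
  intro τ _
  rw [← hA τ]
  exact Ideal.mem_map_of_mem _ (A.mul_mem_left _ hb)

end

/-- JOB D5 -/
theorem d5 : S_BSC → S_DED → S_NMM → S_MV → S_D5 := by
  intro hBSC hDED _ hMV p r _ _ L _ _ D hD M _ _ _ _ J hJ hsim
  have hD' : algebraMap L M D ≠ 0 := by
    rw [Ne, map_eq_zero]
    exact hD
  have : CharZero M := charZero_of_injective_algebraMap (algebraMap L M).injective
  have : IsDedekindDomain (BQ p r (algebraMap L M D)) := (hDED p r M _ hD').1
  obtain ⟨e, he, -, -, -⟩ := (hBSC p r M (algebraMap L M D)).2.2.2.1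
  have hprime : (t1 p r (algebraMap L M D)).IsPrime := by
    rw [← he]
    exact RingHom.ker_isPrime _
  have hmem : ∀ b, b ∈ t1 p r (algebraMap L M D) ↔ e b = 0 := by
    intro b
    rw [← he]
    exact RingHom.mem_ker
  obtain ⟨A, hA0, hAf, a, b, ha, hb, hab⟩ := Pool.Agent.Q132.CJ.fixed_rep
    (t1 p r (algebraMap L M D))
    (fun u hu h => by
      obtain ⟨c, rfl⟩ := unit_const hBSC p r M _ u hu
      rw [hmem, map_sub, AlgHom.commutes, map_one, sub_eq_zero] at h
      have h' : c = 1 := h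
      rw [h', map_one])
    (fun a ha b hb => by
      rw [hmem] at ha hb
      refine ⟨algebraMap M _ (e b / e a), ?_, ?_⟩
      · refine IsUnit.of_mul_eq_one (algebraMap M _ (e a / e b)) ?_
        rw [← map_mul, div_mul_div_cancel₀ ha, div_self hb, map_one]
      · rw [hmem, map_sub, map_mul, AlgHom.commutes]
        change e b / e a * e a - e b = 0
        rw [div_mul_cancel₀ _ ha, sub_self])
    (fun I hI => by
      obtain ⟨K, hK, hs, hK1, _⟩ := (hMV p r M _ hD').1 I hI
      exact ⟨K, hK, hs, hK1⟩)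
    (ga p r D (M := M)) (ga_one p D r) (ga_mul p D r) (ga_inj p D r)
    (fun τ b hb => ga_t1 p D r τ b hb) J hJ hsim
  have hext := extended p D r hBSC A hAf
  refine ⟨A.comap (bc p r (algebraMap L M) D _ rfl), ?_, a, b, ha, hb, by rw [hext]; exact hab⟩
  intro h
  rw [h, Ideal.map_bot] at hext
  exact hA0 hext.symm

end Pool.Agent.Q13.CF
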